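import Pool.Agent.Lib.OSI36.Defs

/-!
# Basic linear algebra for the randomized SVD
-/

namespace Pool.Agent.Lib.OSI36

open Matrix MeasureTheory

variable {m n d k r : ℕ}

lemma normSq_eq_dot (x : Fin m → ℝ) : normSq x = x ⬝ᵥ x := by
  simp [normSq, dotProduct, pow_two]

lemma normSq_nonneg (x : Fin m → ℝ) : 0 ≤ normSq x :=
  Finset.sum_nonneg fun i _ => sq_nonneg (x i)

lemma normSq_eq_zero {x : Fin m → ℝ} (h : normSq x = 0) : x = 0 := by
  funext i
  have := (Finset.sum_eq_zero_iff_of_nonneg (fun i _ => sq_nonneg (x i))).mp h i (Finset.mem_univ i)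
  simpa using this

@[simp] lemma normSq_zero : normSq (0 : Fin m → ℝ) = 0 := by simp [normSq]

/-- Squared Frobenius norm. -/
def frobSq (M : Matrix (Fin m) (Fin n) ℝ) : ℝ := ∑ i, ∑ j, M i j ^ 2

lemma frobSq_nonneg (M : Matrix (Fin m) (Fin n) ℝ) : 0 ≤ frobSq M :=
  Finset.sum_nonneg fun _ _ => Finset.sum_nonneg fun _ _ => sq_nonneg _

lemma frobNorm_eq (M : Matrix (Fin m) (Fin n) ℝ) : frobNorm M = Real.sqrt (frobSq M) := rfl

lemma frobNorm_sq (M : Matrix (Fin m) (Fin n) ℝ) : frobNorm M ^ 2 = frobSq M :=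
  Real.sq_sqrt (frobSq_nonneg M)

lemma frobSq_eq_rows (M : Matrix (Fin m) (Fin n) ℝ) : frobSq M = ∑ i, normSq (M i) := rfl

lemma frobSq_eq_trace (M : Matrix (Fin m) (Fin n) ℝ) : frobSq M = trace (M * Mᵀ) := by
  simp [frobSq, trace, Matrix.mul_apply, pow_two]

lemma frobSq_transpose (M : Matrix (Fin m) (Fin n) ℝ) : frobSq Mᵀ = frobSq M := by
  unfold frobSq
  rw [Finset.sum_comm]
  rfl

lemma frobSq_eq_trace' (M : Matrix (Fin m) (Fin n) ℝ) : frobSq M = trace (Mᵀ * M) := by
  rw [← frobSq_transpose, frobSq_eq_trace, transpose_transpose]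

lemma frobSq_add (X Y : Matrix (Fin m) (Fin n) ℝ) (h : X * Yᵀ = 0) :
    frobSq (X + Y) = frobSq X + frobSq Y := by
  have h' : Y * Xᵀ = 0 := by
    have := congrArg Matrix.transpose h
    simpa using this
  rw [frobSq_eq_trace, frobSq_eq_trace, frobSq_eq_trace, transpose_add, Matrix.add_mul,
    Matrix.mul_add, Matrix.mul_add, h, h']
  simp

lemma frobSq_add' (X Y : Matrix (Fin m) (Fin n) ℝ) (h : Xᵀ * Y = 0) :
    frobSq (X + Y) = frobSq X + frobSq Y := by
  rw [← frobSq_transpose, transpose_add, frobSq_add, frobSq_transpose, frobSq_transpose]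
  simpa using h

/-- The residual `A - (A W)(A W)⁺ A` is at most `A - A W X`. -/
lemma rsvd_le (A : Matrix (Fin n) (Fin d) ℝ) (W : Matrix (Fin d) (Fin k) ℝ)
    (X : Matrix (Fin k) (Fin d) ℝ) :
    frobSq (A - rsvd A W) ≤ frobSq (A - A * W * X) := by
  obtain ⟨h1, -, h3, -⟩ := pinv_spec (A * W)
  unfold rsvd
  set M := A * W with hM
  set P := M * pinv M with hP
  have hPP : P * P = P := by
    rw [hP, ← Matrix.mul_assoc, h1]
  have e : A - M * X = (A - P * A) + P * (A - M * X) := by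
    have : P * (M * X) = M * X := by
      rw [← Matrix.mul_assoc, h1]
    rw [Matrix.mul_sub, this]
    abel
  rw [e, frobSq_add']
  · linarith [frobSq_nonneg (P * (A - M * X))]
  · rw [transpose_sub, transpose_mul, h3, Matrix.sub_mul]
    have : Aᵀ * P * (P * (A - M * X)) = Aᵀ * (P * (A - M * X)) := by
      calc Aᵀ * P * (P * (A - M * X)) = Aᵀ * (P * P * (A - M * X)) := by
            simp only [Matrix.mul_assoc]
        _ = _ := by rw [hPP]
    rw [this, sub_self]

/-- Deterministic error bound for the randomized SVD from an orthonormal frame `Q`. -/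
lemma rsvd_error_le {A : Matrix (Fin n) (Fin d) ℝ} {W : Matrix (Fin d) (Fin k) ℝ}
    {Q : Matrix (Fin d) (Fin r) ℝ} (hQ : Qᵀ * Q = 1) {S : Matrix (Fin n) (Fin r) ℝ}
    {X : Matrix (Fin k) (Fin d) ℝ} (hX : A * W * X = A * Q * Qᵀ + S * Qᵀ) :
    frobSq (A - rsvd A W) ≤ frobSq (A - A * Q * Qᵀ) + frobSq S := by
  refine (rsvd_le A W X).trans ?_
  rw [hX]
  have e : A - (A * Q * Qᵀ + S * Qᵀ) = (A - A * Q * Qᵀ) + (-(S * Qᵀ)) := by abel
  rw [e, frobSq_add]
  · have : frobSq (-(S * Qᵀ)) = frobSq S := by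
      rw [frobSq_eq_trace, frobSq_eq_trace]
      congr 1
      rw [transpose_neg, Matrix.neg_mul, Matrix.mul_neg, neg_neg, transpose_mul, transpose_transpose]
      calc S * Qᵀ * (Q * Sᵀ) = S * (Qᵀ * Q) * Sᵀ := by simp only [Matrix.mul_assoc]
        _ = S * Sᵀ := by rw [hQ, Matrix.mul_one]
    rw [this]
  · rw [transpose_neg, Matrix.mul_neg, transpose_mul, transpose_transpose, Matrix.sub_mul]
    have : A * Q * Qᵀ * (Q * Sᵀ) = A * (Q * Sᵀ) := by
      calc A * Q * Qᵀ * (Q * Sᵀ) = A * (Q * (Qᵀ * Q) * Sᵀ) := by simp only [Matrix.mul_assoc]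
        _ = A * (Q * Sᵀ) := by rw [hQ, Matrix.mul_one]
    rw [this, sub_self, neg_zero]

/-- Projecting the rows on the row space frame decreases the residual. -/
lemma resid_le {A B : Matrix (Fin n) (Fin d) ℝ} {Q : Matrix (Fin d) (Fin r) ℝ} (hQ : Qᵀ * Q = 1)
    (hB : B * Q * Qᵀ = B) : frobSq (A - A * Q * Qᵀ) ≤ frobSq (A - B) := by
  have e : A - B = (A - A * Q * Qᵀ) + (A - B) * Q * Qᵀ := by
    rw [Matrix.sub_mul, Matrix.sub_mul, hB]
    abel
  rw [e, frobSq_add]
  · linarith [frobSq_nonneg ((A - B) * Q * Qᵀ)]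
  · have h1 : ((A - B) * Q * Qᵀ)ᵀ = Q * ((A - B) * Q)ᵀ := by
      rw [transpose_mul, transpose_transpose]
    rw [h1, Matrix.sub_mul]
    have : A * Q * Qᵀ * (Q * ((A - B) * Q)ᵀ) = A * (Q * ((A - B) * Q)ᵀ) := by
      calc A * Q * Qᵀ * (Q * ((A - B) * Q)ᵀ) = A * (Q * (Qᵀ * Q) * ((A - B) * Q)ᵀ) := by
            simp only [Matrix.mul_assoc]
        _ = _ := by rw [hQ, Matrix.mul_one]
    rw [this, sub_self]

/-- A matrix of rank at most `r ≤ d` has its row space inside the span of an orthonormal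
`r`-frame. -/
lemma exists_frame (B : Matrix (Fin n) (Fin d) ℝ) (hr : B.rank ≤ r) (hrd : r ≤ d) :
    ∃ Q : Matrix (Fin d) (Fin r) ℝ, Qᵀ * Q = 1 ∧ B * Q * Qᵀ = B := by
  classical
  have hG : (Bᵀ * B).IsHermitian := by
    have := Matrix.isHermitian_conjTranspose_mul_self B
    simpa using this
  set U : Matrix (Fin d) (Fin d) ℝ := (hG.eigenvectorUnitary : Matrix (Fin d) (Fin d) ℝ) with hU
  have hUU : Uᵀ * U = 1 := by
    have := Unitary.coe_star_mul_self hG.eigenvectorUnitary
    simpa [Matrix.star_eq_conjTranspose] using this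
  have hUU' : U * Uᵀ = 1 := mul_eq_one_comm.mp hUU
  have hcard : (Finset.univ.filter (fun i => hG.eigenvalues i ≠ 0)).card ≤ r := by
    have h1 := hG.rank_eq_card_non_zero_eigs
    rw [Matrix.rank_transpose_mul_self] at h1
    rw [← Fintype.card_subtype]
    rw [← h1]
    exact hr
  obtain ⟨S, hS, -, hScard⟩ := Finset.exists_subsuperset_card_eq
    (Finset.subset_univ (Finset.univ.filter (fun i => hG.eigenvalues i ≠ 0))) hcard
    (by simpa using hrd)
  let f : Fin r ≃ S := (Finset.equivFinOfCardEq hScard).symm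
  have hBU : ∀ j, j ∉ S → ∀ i, (B * U) i j = 0 := by
    intro j hj
    have hev : hG.eigenvalues j = 0 := by
      by_contra hne
      exact hj (hS (by simp [hne]))
    have h1 := hG.mulVec_eigenvectorBasis j
    rw [hev, zero_smul] at h1
    have h2 : B *ᵥ (hG.eigenvectorBasis j) = 0 := by
      have h3 : (B *ᵥ (hG.eigenvectorBasis j)) ⬝ᵥ (B *ᵥ (hG.eigenvectorBasis j)) = 0 := by
        rw [Matrix.dotProduct_mulVec, ← Matrix.mulVec_transpose, Matrix.mulVec_mulVec, h1]
        simp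
      have h4 : normSq (B *ᵥ (hG.eigenvectorBasis j)) = 0 := by rw [normSq_eq_dot]; exact h3
      exact normSq_eq_zero h4
    intro i
    have := congrFun h2 i
    simpa [Matrix.mulVec, dotProduct, Matrix.mul_apply, hU] using this
  refine ⟨Matrix.of (fun i j => U i (f j)), ?_, ?_⟩
  · ext a b
    have h1 := congrFun (congrFun hUU (f a)) (f b)
    simp only [Matrix.mul_apply, Matrix.transpose_apply, Matrix.of_apply] at h1 ⊢
    rw [h1]
    by_cases hab : a = b
    · subst hab
      rw [Matrix.one_apply_eq, Matrix.one_apply_eq]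
    · have : (f a : Fin d) ≠ f b := by
        intro h
        exact hab (f.injective (Subtype.ext h))
      rw [Matrix.one_apply_ne this, Matrix.one_apply_ne hab]
  · have hB : B = B * U * Uᵀ := by rw [Matrix.mul_assoc, hUU', Matrix.mul_one]
    conv_rhs => rw [hB]
    ext i j
    have h1 : (B * Matrix.of (fun i j => U i (f j)) * (Matrix.of (fun i j => U i (f j)))ᵀ) i j =
        ∑ c : Fin r, (B * U) i (f c) * U j (f c) := by
      simp [Matrix.mul_apply]
    have h2 : (B * U * Uᵀ) i j = ∑ c : Fin d, (B * U) i c * U j c := by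
      rw [Matrix.mul_apply]
      rfl
    rw [h1, h2]
    rw [← Finset.sum_subset (Finset.subset_univ S)
      (fun c _ hc => by rw [hBU c hc i, zero_mul])]
    rw [← Finset.sum_coe_sort S]
    exact Equiv.sum_comp f (fun c : S => (B * U) i c * U j c)

end Pool.Agent.Lib.OSI36
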