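import Mathlib

/-!
# Definitions for the randomized SVD under oblivious subspace injections

Vectors of `ℝ^d` are functions `Fin d → ℝ`; `normSq` is the squared Euclidean norm and `frobNorm`
the Frobenius norm, written out explicitly.
-/

namespace Pool.Agent.Lib.OSI36

open Matrix MeasureTheory

/-- Squared Euclidean norm of a vector. -/
def normSq {m : ℕ} (x : Fin m → ℝ) : ℝ := ∑ i, x i ^ 2

/-- Frobenius norm of a matrix. -/
noncomputable def frobNorm {m n : ℕ} (M : Matrix (Fin m) (Fin n) ℝ) : ℝ :=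
  Real.sqrt (∑ i, ∑ j, M i j ^ 2)

/-- `X` satisfies the four Penrose equations for `M`, that is, `X` is the Moore-Penrose
pseudoinverse of `M`. -/
structure IsMoorePenrose {m n : ℕ} (M : Matrix (Fin m) (Fin n) ℝ)
    (X : Matrix (Fin n) (Fin m) ℝ) : Prop where
  mul_mul : M * X * M = M
  mul_mul' : X * M * X = X
  symm_left : (M * X)ᵀ = M * X
  symm_right : (X * M)ᵀ = X * M

/-- Every real matrix has a Moore-Penrose pseudoinverse. -/
theorem exists_isMoorePenrose {m n : ℕ} (M : Matrix (Fin m) (Fin n) ℝ) :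
    ∃ X, IsMoorePenrose M X := by
  classical
  have hG : (Mᵀ * M).IsHermitian := by
    have := Matrix.isHermitian_conjTranspose_mul_self M
    simpa using this
  -- spectral decomposition of the Gram matrix
  set U : Matrix (Fin n) (Fin n) ℝ := (hG.eigenvectorUnitary : Matrix (Fin n) (Fin n) ℝ) with hU
  have hUU : Uᵀ * U = 1 := by
    have := Unitary.coe_star_mul_self hG.eigenvectorUnitary
    simpa [Matrix.star_eq_conjTranspose] using this
  have hUU' : U * Uᵀ = 1 := mul_eq_one_comm.mp hUU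
  set D : Matrix (Fin n) (Fin n) ℝ := diagonal hG.eigenvalues with hD
  have hspec : Mᵀ * M = U * D * Uᵀ := by
    have := hG.spectral_theorem
    rw [Unitary.conjStarAlgAut_apply] at this
    simpa [Matrix.star_eq_conjTranspose, hD] using this
  set E : Matrix (Fin n) (Fin n) ℝ := diagonal (fun i => (hG.eigenvalues i)⁻¹) with hE
  have hDED : D * E * D = D := by
    rw [hD, hE, diagonal_mul_diagonal, diagonal_mul_diagonal]
    congr 1
    ext i
    by_cases h : hG.eigenvalues i = 0
    · simp [h]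
    · field_simp
  have hEDE : E * D * E = E := by
    rw [hD, hE, diagonal_mul_diagonal, diagonal_mul_diagonal]
    congr 1
    ext i
    by_cases h : hG.eigenvalues i = 0
    · simp [h]
    · field_simp
  have hcomm : D * E = E * D := by
    rw [hD, hE, diagonal_mul_diagonal, diagonal_mul_diagonal]
    congr 1
    ext i
    ring
  set P : Matrix (Fin n) (Fin n) ℝ := U * E * Uᵀ with hP
  have hPt : Pᵀ = P := by
    rw [hP]
    simp [Matrix.transpose_mul, hE, Matrix.mul_assoc]
  obtain ⟨G, hGdef⟩ : ∃ G : Matrix (Fin n) (Fin n) ℝ, G = Mᵀ * M := ⟨_, rfl⟩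
  rw [← hGdef] at hspec
  have hGt : Gᵀ = G := by rw [hGdef]; simp
  have key : ∀ X Y : Matrix (Fin n) (Fin n) ℝ,
      (U * X * Uᵀ) * (U * Y * Uᵀ) = U * (X * Y) * Uᵀ := by
    intro X Y
    calc (U * X * Uᵀ) * (U * Y * Uᵀ) = U * X * (Uᵀ * U) * Y * Uᵀ := by
          simp only [Matrix.mul_assoc]
      _ = U * (X * Y) * Uᵀ := by rw [hUU]; simp only [Matrix.mul_assoc, Matrix.one_mul]
  have hGPG : G * P * G = G := by
    rw [hspec, hP, key, key, hDED]
  have hPGP : P * G * P = P := by
    rw [hspec, hP, key, key, hEDE]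
  have hGP : G * P = P * G := by
    rw [hspec, hP, key, key, hcomm]
  have hMPG : M * P * G = M := by
    have h0 : (M * P * G - M)ᵀ * (M * P * G - M) = 0 := by
      have h1 : (M * P * G - M)ᵀ = G * P * Mᵀ - Mᵀ := by
        rw [transpose_sub, transpose_mul, transpose_mul, hPt, hGt, ← Matrix.mul_assoc]
      rw [h1, Matrix.sub_mul, Matrix.mul_sub, Matrix.mul_sub]
      have e1 : G * P * Mᵀ * (M * P * G) = G := by
        calc G * P * Mᵀ * (M * P * G) = G * P * (Mᵀ * M) * P * G := by
              simp only [Matrix.mul_assoc]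
          _ = G * P * G * P * G := by rw [← hGdef]
          _ = G := by rw [hGPG, hGPG]
      have e2 : G * P * Mᵀ * M = G := by
        rw [Matrix.mul_assoc, ← hGdef, hGPG]
      have e3 : Mᵀ * (M * P * G) = G := by
        calc Mᵀ * (M * P * G) = (Mᵀ * M) * P * G := by simp only [Matrix.mul_assoc]
          _ = G := by rw [← hGdef, hGPG]
      rw [e1, e2, e3, ← hGdef]
      simp
    have h2 := (Matrix.conjTranspose_mul_self_eq_zero (A := M * P * G - M)).mp (by simpa using h0)
    exact sub_eq_zero.mp h2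
  refine ⟨P * Mᵀ, ?_, ?_, ?_, ?_⟩
  · calc M * (P * Mᵀ) * M = M * P * (Mᵀ * M) := by simp only [Matrix.mul_assoc]
      _ = M := by rw [← hGdef, hMPG]
  · calc P * Mᵀ * M * (P * Mᵀ) = P * (Mᵀ * M) * P * Mᵀ := by simp only [Matrix.mul_assoc]
      _ = P * Mᵀ := by rw [← hGdef, hPGP]
  · rw [transpose_mul, transpose_mul, transpose_transpose, hPt, Matrix.mul_assoc]
  · have e : P * Mᵀ * M = P * G := by rw [Matrix.mul_assoc, ← hGdef]
    rw [e, transpose_mul, hPt, hGt, hGP]

/-- The Moore-Penrose pseudoinverse of a real matrix. -/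
noncomputable def pinv {m n : ℕ} (M : Matrix (Fin m) (Fin n) ℝ) : Matrix (Fin n) (Fin m) ℝ :=
  (exists_isMoorePenrose M).choose

theorem pinv_spec {m n : ℕ} (M : Matrix (Fin m) (Fin n) ℝ) : IsMoorePenrose M (pinv M) :=
  (exists_isMoorePenrose M).choose_spec

/-- The pseudoinverse is unique. -/
theorem IsMoorePenrose.unique {m n : ℕ} {M : Matrix (Fin m) (Fin n) ℝ}
    {X Y : Matrix (Fin n) (Fin m) ℝ} (hX : IsMoorePenrose M X) (hY : IsMoorePenrose M Y) :
    X = Y := by
  have h1 : M * X = M * Y := by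
    calc M * X = (M * X)ᵀ := hX.symm_left.symm
      _ = (M * Y * M * X)ᵀ := by rw [hY.mul_mul]
      _ = (M * X)ᵀ * (M * Y)ᵀ := by rw [← transpose_mul, ← Matrix.mul_assoc]
      _ = M * X * (M * Y) := by rw [hX.symm_left, hY.symm_left]
      _ = M * Y := by rw [← Matrix.mul_assoc, hX.mul_mul]
  have h2 : X * M = Y * M := by
    calc X * M = (X * M)ᵀ := hX.symm_right.symm
      _ = (X * (M * Y * M))ᵀ := by rw [hY.mul_mul]
      _ = (X * M * (Y * M))ᵀ := by simp only [Matrix.mul_assoc]
      _ = (Y * M)ᵀ * (X * M)ᵀ := by rw [transpose_mul]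
      _ = Y * M * (X * M) := by rw [hX.symm_right, hY.symm_right]
      _ = Y * M := by rw [Matrix.mul_assoc, ← Matrix.mul_assoc M X M, hX.mul_mul]
  calc X = X * M * X := hX.mul_mul'.symm
    _ = Y * M * X := by rw [h2]
    _ = Y * M * Y := by rw [Matrix.mul_assoc, h1, ← Matrix.mul_assoc]
    _ = Y := hY.mul_mul'

/-- The randomized SVD approximation `(A W) (A W)⁺ A` of `A` with sketching matrix `W`. -/
noncomputable def rsvd {n d k : ℕ} (A : Matrix (Fin n) (Fin d) ℝ) (W : Matrix (Fin d) (Fin k) ℝ) :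
    Matrix (Fin n) (Fin d) ℝ :=
  A * W * pinv (A * W) * A

/-- `Ω` is an oblivious subspace injection with subspace dimension `r`, injectivity `α` and failure
probability `δ`: it is isotropic, and for every fixed `r`-dimensional subspace `V` of `ℝ^d`,
with probability at least `1 - δ`, `α ‖x‖² ≤ ‖Ωᵀ x‖²` for all `x ∈ V`. -/
structure IsOSI {Θ : Type*} [MeasurableSpace Θ] (μ : Measure Θ) {d k : ℕ}
    (Ω : Θ → Matrix (Fin d) (Fin k) ℝ) (r : ℕ) (α δ : ℝ) : Prop where
  measurable : ∀ i j, Measurable (fun ω => Ω ω i j)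
  isotropic : ∀ x : Fin d → ℝ, ∫ ω, normSq ((Ω ω)ᵀ *ᵥ x) ∂μ = normSq x
  injective : ∀ V : Submodule ℝ (Fin d → ℝ), Module.finrank ℝ V = r →
    ENNReal.ofReal (1 - δ) ≤ μ {ω | ∀ x ∈ V, α * normSq x ≤ normSq ((Ω ω)ᵀ *ᵥ x)}

end Pool.Agent.Lib.OSI36
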