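import Pool.Agent.Lib.OSI36.Basic

/-!
# The single right-hand side estimate
-/

namespace Pool.Agent.Lib.OSI36

open Matrix MeasureTheory

variable {m n d k r : ℕ}

/-- Scalar inequality behind `row_bound_good`. -/
lemma scalar_bound {α β n' s0 P M L Bq X Y τ : ℝ} (hα : 0 < α) (hβ : 0 < β)
    (hn : 0 ≤ n') (hL : 0 ≤ L) (hB : 0 ≤ Bq) (hτ : τ = β ^ 2 * L + Bq)
    (E : P + α * n' + 2 * s0 * M + s0 ^ 2 * (L + α) = X + s0 * Y)
    (a1 : 0 ≤ P + 4 * s0 * M + 4 * s0 ^ 2 * L)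
    (a4 : 0 ≤ P - 2 * X + Bq)
    (a5 : 0 ≤ τ + 2 * β * Y) (a5' : 0 ≤ τ - 2 * β * Y)
    (hy : α * (n' + s0 ^ 2) ≤ Bq + α * β ^ 2) :
    α * (n' + s0 ^ 2) ≤ 5 * τ := by
  have hτ0 : 0 ≤ τ := by rw [hτ]; positivity
  have hBτ : Bq ≤ τ := by rw [hτ]; nlinarith [mul_nonneg (sq_nonneg β) hL]
  by_cases hc : τ ≤ α * β ^ 2 / 4
  · obtain ⟨u, hu⟩ : ∃ u, s0 = u * β := ⟨s0 / β, by field_simp⟩
    -- `s0 * Y ≤ |u| τ / 2 ≤ (u ^ 2 + 1 / 4) τ / 2`
    have h1 : s0 * Y ≤ (u ^ 2 + 1 / 4) * τ / 2 := by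
      have e : s0 * Y = u * (β * Y) := by rw [hu]; ring
      rw [e]
      have b1 : β * Y ≤ τ / 2 := by linarith
      have b2 : -(τ / 2) ≤ β * Y := by linarith
      rcases le_total 0 u with hu0 | hu0
      · have : u * (β * Y) ≤ u * (τ / 2) := mul_le_mul_of_nonneg_left b1 hu0
        have h2 : u * τ ≤ (u ^ 2 + 1 / 4) * τ :=
          mul_le_mul_of_nonneg_right (by nlinarith [sq_nonneg (u - 1 / 2)]) hτ0
        linarith
      · have : u * (β * Y) ≤ u * (-(τ / 2)) := mul_le_mul_of_nonpos_left b2 hu0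
        have h2 : (-u) * τ ≤ (u ^ 2 + 1 / 4) * τ :=
          mul_le_mul_of_nonneg_right (by nlinarith [sq_nonneg (u + 1 / 2)]) hτ0
        linarith
    have h2 : s0 ^ 2 * L ≤ u ^ 2 * τ := by
      have e : s0 ^ 2 * L = u ^ 2 * (β ^ 2 * L) := by rw [hu]; ring
      rw [e]
      apply mul_le_mul_of_nonneg_left _ (sq_nonneg u)
      rw [hτ]; linarith
    have h3 : u ^ 2 * τ ≤ α * s0 ^ 2 / 4 := by
      have e : α * s0 ^ 2 / 4 = u ^ 2 * (α * β ^ 2 / 4) := by rw [hu]; ring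
      rw [e]
      exact mul_le_mul_of_nonneg_left hc (sq_nonneg u)
    have h4 : α * (n' + s0 ^ 2) ≤ Bq / 2 + s0 * Y + s0 ^ 2 * L := by nlinarith
    have h5 : 0 ≤ α * n' := by positivity
    nlinarith
  · push Not at hc
    nlinarith

/-- If `N s` is the projection of `y` on the range of `N` then `α ‖s‖² ≤ ‖y‖²`. -/
lemma row_bound {N : Matrix (Fin k) (Fin r) ℝ} {y : Fin k → ℝ} {s : Fin r → ℝ} {α : ℝ}
    (hs : ∀ z, (N *ᵥ s) ⬝ᵥ (N *ᵥ z) = y ⬝ᵥ (N *ᵥ z))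
    (hα : ∀ z, α * normSq z ≤ normSq (N *ᵥ z)) : α * normSq s ≤ normSq y := by
  have h1 := hs s
  have h2 := normSq_nonneg (y - N *ᵥ s)
  rw [normSq_eq_dot, sub_dotProduct, dotProduct_sub, dotProduct_sub, ← h1,
    dotProduct_comm (N *ᵥ s) y, ← h1] at h2
  have h3 := hα s
  rw [normSq_eq_dot (N *ᵥ s)] at h3
  rw [normSq_eq_dot y]
  linarith

/-- Instances of the injectivity used for one right-hand side. -/
lemma row_bound_good {r : ℕ} {N : Matrix (Fin k) (Fin (r + 1)) ℝ} {y : Fin k → ℝ}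
    {s : Fin (r + 1) → ℝ} {α β : ℝ} (hα0 : 0 < α) (hβ : 0 < β)
    (hs : ∀ z, (N *ᵥ s) ⬝ᵥ (N *ᵥ z) = y ⬝ᵥ (N *ᵥ z))
    (hα : ∀ z, α * normSq z ≤ normSq (N *ᵥ z))
    (h1 : α * (β ^ 2) ≤ normSq y)
    (h2 : α * (normSq (s - s 0 • Pi.single 0 1) + β ^ 2) ≤
      normSq (N *ᵥ (s - s 0 • Pi.single 0 1) - y))
    (h3 : 2 * α * β ^ 2 ≤ normSq (β • (N *ᵥ Pi.single 0 1) + y))
    (h4 : 2 * α * β ^ 2 ≤ normSq (β • (N *ᵥ Pi.single 0 1) - y)) :
    α * normSq s ≤ 5 * (β ^ 2 * normSq (N *ᵥ Pi.single 0 1) + normSq y - 2 * α * β ^ 2) := by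
  set e0 : Fin (r + 1) → ℝ := Pi.single 0 1 with he0
  set s' : Fin (r + 1) → ℝ := s - s 0 • e0 with hs'
  have hse : s = s' + s 0 • e0 := by rw [hs']; abel
  have hs'0 : s' ⬝ᵥ e0 = 0 := by
    rw [he0, dotProduct_single, hs']
    simp [he0]
  have he00 : e0 ⬝ᵥ e0 = 1 := by rw [he0]; simp
  have hns : normSq s = normSq s' + s 0 ^ 2 := by
    conv_lhs => rw [hse]
    rw [normSq_eq_dot, normSq_eq_dot, add_dotProduct, dotProduct_add, dotProduct_add,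
      dotProduct_smul, smul_dotProduct, smul_dotProduct, dotProduct_smul, he00, hs'0,
      dotProduct_comm e0 s', hs'0]
    simp only [smul_eq_mul]
    ring
  set a := N *ᵥ s' with ha
  set b := N *ᵥ e0 with hb
  have hNs : N *ᵥ s = a + s 0 • b := by
    conv_lhs => rw [hse]
    rw [mulVec_add, mulVec_smul]
  have E := hs s
  rw [hNs] at E
  simp only [add_dotProduct, dotProduct_add, dotProduct_smul, smul_dotProduct, smul_eq_mul] at E
  have A1 := hα (s' + (2 * s 0) • e0)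
  have hn1 : normSq (s' + (2 * s 0) • e0) = normSq s' + 4 * s 0 ^ 2 := by
    rw [normSq_eq_dot, normSq_eq_dot, add_dotProduct, dotProduct_add, dotProduct_add,
      dotProduct_smul, smul_dotProduct, smul_dotProduct, dotProduct_smul, he00, hs'0,
      dotProduct_comm e0 s', hs'0]
    simp only [smul_eq_mul]
    ring
  rw [hn1, mulVec_add, mulVec_smul, ← ha, ← hb, normSq_eq_dot (a + (2 * s 0) • b)] at A1
  simp only [add_dotProduct, dotProduct_add, dotProduct_smul, smul_dotProduct, smul_eq_mul] at A1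
  have A2 := hα e0
  rw [normSq_eq_dot e0, he00, ← hb, normSq_eq_dot b] at A2
  rw [normSq_eq_dot] at h1
  rw [normSq_eq_dot (a - y)] at h2
  rw [normSq_eq_dot (β • b + y)] at h3
  rw [normSq_eq_dot (β • b - y)] at h4
  simp only [add_dotProduct, dotProduct_add, sub_dotProduct, dotProduct_sub, dotProduct_smul,
    smul_dotProduct, smul_eq_mul] at h2 h3 h4
  have hy := row_bound hs hα
  rw [hns, normSq_eq_dot y] at hy
  rw [hns, normSq_eq_dot b, normSq_eq_dot y]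
  have c1 : b ⬝ᵥ a = a ⬝ᵥ b := dotProduct_comm _ _
  have c2 : a ⬝ᵥ y = y ⬝ᵥ a := dotProduct_comm _ _
  have c3 : b ⬝ᵥ y = y ⬝ᵥ b := dotProduct_comm _ _
  rw [c1] at E A1
  rw [c2] at h2
  rw [c3] at h3 h4
  have key := scalar_bound (α := α) (β := β) (n' := normSq s') (s0 := s 0)
    (P := a ⬝ᵥ a - α * normSq s') (M := a ⬝ᵥ b) (L := b ⬝ᵥ b - α) (Bq := y ⬝ᵥ y - α * β ^ 2)
    (X := y ⬝ᵥ a) (Y := y ⬝ᵥ b) (τ := β ^ 2 * (b ⬝ᵥ b - α) + (y ⬝ᵥ y - α * β ^ 2))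
    hα0 hβ (normSq_nonneg _) (by linarith) (by linarith) rfl (by linarith) (by linarith)
    (by linarith) (by linarith) (by linarith) (by linarith)
  linarith

end Pool.Agent.Lib.OSI36
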