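import Pool.Agent.Lib.OSI36.Basic

/-!
# Uniform random signs on a finite product
-/

namespace Pool.Agent.Lib.OSI36

open Finset

/-- The sign of a boolean. -/
def sg (b : Bool) : ℝ := if b then 1 else -1

@[simp] lemma sg_mul_self (b : Bool) : sg b * sg b = 1 := by cases b <;> simp [sg]

lemma sg_not (b : Bool) : sg (!b) = -sg b := by cases b <;> simp [sg]

variable {ι : Type*} [Fintype ι] [DecidableEq ι]

/-- Flipping the sign at one coordinate. -/
def flip (p : ι) (σ : ι → Bool) : ι → Bool := Function.update σ p (!σ p)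

lemma flip_involutive (p : ι) : Function.Involutive (flip p : (ι → Bool) → (ι → Bool)) := by
  intro σ
  unfold flip
  simp

@[simp] lemma sg_flip_self (p : ι) (σ : ι → Bool) : sg (flip p σ p) = -sg (σ p) := by
  unfold flip
  simp [sg_not]

lemma flip_ne {p q : ι} (h : q ≠ p) (σ : ι → Bool) : flip p σ q = σ q := by
  unfold flip
  simp [h]

lemma sum_flip_zero (p : ι) (f : (ι → Bool) → ℝ) (hf : ∀ σ, f (flip p σ) = - f σ) :
    ∑ σ, f σ = 0 := by
  have h1 : ∑ σ, f (flip p σ) = ∑ σ, f σ :=
    Equiv.sum_comp (Function.Involutive.toPerm (flip p) (flip_involutive p)) f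
  have h2 : ∑ σ, f (flip p σ) = - ∑ σ, f σ := by
    rw [← Finset.sum_neg_distrib]
    exact Finset.sum_congr rfl fun σ _ => hf σ
  linarith

/-- The number of sign patterns, as a real number. -/
noncomputable def cnt (ι : Type*) [Fintype ι] [DecidableEq ι] : ℝ := ∑ _σ : ι → Bool, (1 : ℝ)

lemma cnt_pos : 0 < cnt ι := by
  unfold cnt
  simp

lemma sum_sg (p : ι) : ∑ σ : ι → Bool, sg (σ p) = 0 :=
  sum_flip_zero p _ fun σ => by simp

lemma sum_sg_mul_sg (p q : ι) :
    ∑ σ : ι → Bool, sg (σ p) * sg (σ q) = if p = q then cnt ι else 0 := by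
  split_ifs with h
  · subst h
    simp [cnt]
  · refine sum_flip_zero p _ fun σ => ?_
    rw [sg_flip_self, flip_ne (Ne.symm h)]
    ring

lemma sum_sg4 {p q p' q' : ι} (h : p ≠ q) (h' : p' ≠ q') :
    ∑ σ : ι → Bool, (sg (σ p) * sg (σ q)) * (sg (σ p') * sg (σ q')) =
      if (p', q') = (p, q) ∨ (p', q') = (q, p) then cnt ι else 0 := by
  split_ifs with hc
  · rcases hc with hc | hc
    · simp only [Prod.mk.injEq] at hc
      obtain ⟨rfl, rfl⟩ := hc
      unfold cnt
      refine Finset.sum_congr rfl fun σ _ => ?_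
      have h1 := sg_mul_self (σ p')
      have h2 := sg_mul_self (σ q')
      calc sg (σ p') * sg (σ q') * (sg (σ p') * sg (σ q'))
          = (sg (σ p') * sg (σ p')) * (sg (σ q') * sg (σ q')) := by ring
        _ = 1 := by rw [h1, h2]; norm_num
    · simp only [Prod.mk.injEq] at hc
      obtain ⟨rfl, rfl⟩ := hc
      unfold cnt
      refine Finset.sum_congr rfl fun σ _ => ?_
      have h1 := sg_mul_self (σ p')
      have h2 := sg_mul_self (σ q')
      calc sg (σ q') * sg (σ p') * (sg (σ p') * sg (σ q'))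
          = (sg (σ p') * sg (σ p')) * (sg (σ q') * sg (σ q')) := by ring
        _ = 1 := by rw [h1, h2]; norm_num
  · simp only [Prod.mk.injEq] at hc
    -- one of `p`, `q` is different from both `p'` and `q'`
    by_cases hp : p = p' ∨ p = q'
    · have hq : q ≠ p' ∧ q ≠ q' := by
        constructor
        · rintro rfl
          rcases hp with rfl | rfl
          · exact h rfl
          · exact hc (Or.inr ⟨rfl, rfl⟩)
        · rintro rfl
          rcases hp with rfl | rfl
          · exact hc (Or.inl ⟨rfl, rfl⟩)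
          · exact h rfl
      refine sum_flip_zero q _ fun σ => ?_
      rw [sg_flip_self, flip_ne h, flip_ne hq.1.symm, flip_ne hq.2.symm]
      ring
    · push Not at hp
      refine sum_flip_zero p _ fun σ => ?_
      rw [sg_flip_self, flip_ne (Ne.symm h), flip_ne hp.1.symm, flip_ne hp.2.symm]
      ring

/-- Second moment of a linear form in random signs. -/
lemma sum_linear_sq (a : ι → ℝ) :
    ∑ σ : ι → Bool, (∑ p, a p * sg (σ p)) ^ 2 = cnt ι * ∑ p, a p ^ 2 := by
  have h : ∀ σ : ι → Bool, (∑ p, a p * sg (σ p)) ^ 2 =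
      ∑ p, ∑ q, a p * a q * (sg (σ p) * sg (σ q)) := by
    intro σ
    rw [pow_two, Finset.sum_mul_sum]
    refine Finset.sum_congr rfl fun p _ => Finset.sum_congr rfl fun q _ => ?_
    ring
  simp_rw [h]
  rw [Finset.sum_comm]
  rw [Finset.mul_sum]
  refine Finset.sum_congr rfl fun p _ => ?_
  rw [Finset.sum_comm]
  simp_rw [← Finset.mul_sum, sum_sg_mul_sg]
  rw [Finset.sum_eq_single p]
  · simp; ring
  · intro q _ hq
    simp [hq.symm]
  · simp

/-- Second moment of an off-diagonal quadratic form in random signs. -/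
lemma sum_chaos_sq_le (c : ι × ι → ℝ) (hc : ∀ p, c (p, p) = 0) :
    ∑ σ : ι → Bool, (∑ x : ι × ι, c x * (sg (σ x.1) * sg (σ x.2))) ^ 2 ≤
      cnt ι * (2 * ∑ x, c x ^ 2) := by
  have h : ∀ σ : ι → Bool, (∑ x : ι × ι, c x * (sg (σ x.1) * sg (σ x.2))) ^ 2 =
      ∑ x : ι × ι, ∑ y : ι × ι,
        c x * c y * ((sg (σ x.1) * sg (σ x.2)) * (sg (σ y.1) * sg (σ y.2))) := by
    intro σ
    rw [pow_two, Finset.sum_mul_sum]
    refine Finset.sum_congr rfl fun p _ => Finset.sum_congr rfl fun q _ => ?_
    ring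
  simp_rw [h]
  rw [Finset.sum_comm]
  have h2 : ∀ x : ι × ι, ∑ σ : ι → Bool, ∑ y : ι × ι,
        c x * c y * ((sg (σ x.1) * sg (σ x.2)) * (sg (σ y.1) * sg (σ y.2))) =
      cnt ι * (c x ^ 2 + c x * c x.swap) := by
    intro x
    by_cases hx : x.1 = x.2
    · have hcx : c x = 0 := by
        have : x = (x.1, x.1) := by ext <;> simp [hx]
        rw [this]; exact hc _
      simp [hcx]
    · rw [Finset.sum_comm]
      simp_rw [← Finset.mul_sum]
      have h3 : ∀ y : ι × ι, c x * c y *
          ∑ σ : ι → Bool, ((sg (σ x.1) * sg (σ x.2)) * (sg (σ y.1) * sg (σ y.2))) =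
          if y = x ∨ y = x.swap then c x * c y * cnt ι else 0 := by
        intro y
        by_cases hy : y.1 = y.2
        · have hcy : c y = 0 := by
            have : y = (y.1, y.1) := by ext <;> simp [hy]
            rw [this]; exact hc _
          simp [hcy]
        · rw [sum_sg4 hx hy]
          have e1 : (y.1, y.2) = (x.1, x.2) ↔ y = x := by simp
          have e2 : (y.1, y.2) = (x.2, x.1) ↔ y = x.swap := by
            rw [← Prod.mk.eta (p := x.swap)]
            simp
          simp only [e1, e2]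
          split_ifs <;> simp
      simp_rw [h3]
      have hne : x ≠ x.swap := by
        intro hxs
        exact hx (by have := congrArg Prod.fst hxs; simpa using this)
      rw [← Finset.sum_filter]
      have hf : Finset.univ.filter (fun y => y = x ∨ y = x.swap) = {x, x.swap} := by
        ext y; simp
      rw [hf, Finset.sum_pair hne]
      ring
  simp_rw [h2]
  rw [← Finset.mul_sum, Finset.sum_add_distrib]
  apply mul_le_mul_of_nonneg_left _ cnt_pos.le
  have h4 : ∑ x : ι × ι, c x * c x.swap ≤ ∑ x : ι × ι, (c x ^ 2 + c x.swap ^ 2) / 2 := by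
    apply Finset.sum_le_sum
    intro x _
    nlinarith [sq_nonneg (c x - c x.swap)]
  have h5 : ∑ x : ι × ι, c x.swap ^ 2 = ∑ x : ι × ι, c x ^ 2 :=
    Equiv.sum_comp (Equiv.prodComm ι ι) (fun x => c x ^ 2)
  rw [← Finset.sum_div, Finset.sum_add_distrib, h5] at h4
  linarith

end Pool.Agent.Lib.OSI36
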